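import Mathlib

/-!
# The clique-colouring principle, and semantic proofs with wide inferences

A graph with `N` vertices cannot have both a clique with `c + 1` vertices and a proper colouring with
`c` colours. Variables: `p s(i, j)`: the edge `ij` is present; `q a i`: the vertex number `a` of the
clique is `i`; `r i x`: the vertex `i` has the colour `x`.
-/

namespace Pool.Agent.L5helper51.WF

/-- The clauses of the clique-colouring formula. -/
inductive Clause (N c : ℕ) : Type
  | vert (a : Fin (c + 1))
  | inj (a b : Fin (c + 1)) (i : Fin N)
  | edge (a b : Fin (c + 1)) (i j : Fin N)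
  | colr (i : Fin N)
  | prop (i j : Fin N) (x : Fin c)

/-- The meaning of the clauses. -/
def Clause.Holds {N c : ℕ} (C : Clause N c) (p : Sym2 (Fin N) → Bool)
    (q : Fin (c + 1) → Fin N → Bool) (r : Fin N → Fin c → Bool) : Prop :=
  match C with
  | .vert a => ∃ i, q a i = true
  | .inj a b i => a ≠ b → ¬ (q a i = true ∧ q b i = true)
  | .edge a b i j => a ≠ b → i ≠ j → q a i = true → q b j = true → p s(i, j) = true
  | .colr i => ∃ x, r i x = true
  | .prop i j x => i ≠ j → ¬ (p s(i, j) = true ∧ r i x = true ∧ r j x = true)

/-- A line of a proof: the inequality `A (p, q) + B r ≥ 0`, where `A` and `B` are arbitrary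
real-valued functions. -/
structure Line (N c : ℕ) where
  /-- the part which depends on `p` and `q` -/
  A : (Sym2 (Fin N) → Bool) → (Fin (c + 1) → Fin N → Bool) → ℝ
  /-- the part which depends on `r` -/
  B : (Fin N → Fin c → Bool) → ℝ

/-- The line is true. -/
def Line.Holds {N c : ℕ} (l : Line N c) (p : Sym2 (Fin N) → Bool)
    (q : Fin (c + 1) → Fin N → Bool) (r : Fin N → Fin c → Bool) : Prop :=
  0 ≤ l.A p q + l.B r

/-- The premise is true: a clause, or a line derived before. -/
def Prem {N c w g : ℕ} (out : Fin g → Fin w → Line N c) (s : Clause N c ⊕ (Fin g × Fin w))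
    (p : Sym2 (Fin N) → Bool) (q : Fin (c + 1) → Fin N → Bool) (r : Fin N → Fin c → Bool) : Prop :=
  match s with
  | .inl C => C.Holds p q r
  | .inr k => (out k.1 k.2).Holds p q r

/-- A refutation of the clique-colouring formula with `g` inferences of width `w`: the inference `i`
derives the `w` lines `out i j` from the `w` premises `src i k`, each of them a clause or a line of an
earlier inference. Any lines may be derived which are true whenever the premises are true. Some line
is never true. -/
structure Refutation (N c w g : ℕ) where
  /-- the premises -/
  src : Fin g → Fin w → Clause N c ⊕ (Fin g × Fin w)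
  /-- the derived lines -/
  out : Fin g → Fin w → Line N c
  /-- only earlier lines are used -/
  earlier : ∀ i k i' j, src i k = .inr (i', j) → i' < i
  /-- the inferences are sound -/
  sound : ∀ i p q r, (∀ k, Prem out (src i k) p q r) → ∀ j, (out i j).Holds p q r
  /-- some line is contradictory -/
  last : ∃ i j, ∀ p q r, ¬ (out i j).Holds p q r

end Pool.Agent.L5helper51.WF
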