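import Pool.Agent.L5helper51.WK.Num
import Pool.Agent.L5helper51.WF.Defs

/-!
# Refutations give algorithms with wide nondecreasing instructions
-/

namespace Pool.Agent.L5helper51.WF

open Finset
open Pool.Agent.L5helper51.WG (Mem Ins rd xin execs execs_nil execs_append)
open Pool.Agent.L5helper51.WK

variable {N c w g : ℕ}

open Classical in
/-- the edges of the complete graph on `S` -/
noncomputable def pS (S : Finset (Fin N)) (e : Sym2 (Fin N)) : Bool :=
  decide ((∀ v ∈ e, v ∈ S) ∧ ¬ e.IsDiag)

open Classical in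
/-- an enumeration of `S` -/
noncomputable def qS (S : Finset (Fin N)) (a : Fin (c + 1)) (i : Fin N) : Bool :=
  if h : #S = c + 1 then decide (S.orderEmbOfFin h a = i) else false

open Classical in
/-- the colouring -/
noncomputable def rX (χ : Fin N → Fin c) (i : Fin N) (x : Fin c) : Bool := decide (χ i = x)

theorem pS_true {S : Finset (Fin N)} {i j : Fin N} :
    pS S s(i, j) = true ↔ (i ∈ S ∧ j ∈ S) ∧ i ≠ j := by
  simp [pS, Sym2.mem_iff]

theorem qS_true {S : Finset (Fin N)} (h : #S = c + 1) {a : Fin (c + 1)} {i : Fin N} :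
    qS S a i = true ↔ S.orderEmbOfFin h a = i := by
  rw [qS, dif_pos h, decide_eq_true_iff]

theorem rX_true {χ : Fin N → Fin c} {i : Fin N} {x : Fin c} : rX χ i x = true ↔ χ i = x := by
  rw [rX, decide_eq_true_iff]

/-- A clause which is not about colours of edges is true. -/
theorem holds_of (C : Clause N c) {S : Finset (Fin N)} (h : #S = c + 1) (χ : Fin N → Fin c)
    (hC : ∀ i j x, C = .prop i j x → i ≠ j → (i ∈ S ∧ j ∈ S) → χ i ≠ χ j) :
    C.Holds (pS S) (qS S) (rX χ) := by
  cases C with
  | vert a => exact ⟨S.orderEmbOfFin h a, (qS_true h).2 rfl⟩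
  | inj a b i =>
    intro hab h1
    rw [qS_true h, qS_true h] at h1
    exact hab ((S.orderEmbOfFin h).injective (h1.1.trans h1.2.symm))
  | edge a b i j =>
    intro hab hij h1 h2
    rw [qS_true h] at h1 h2
    rw [pS_true]
    subst h1 h2
    exact ⟨⟨S.orderEmbOfFin_mem h a, S.orderEmbOfFin_mem h b⟩, hij⟩
  | colr i => exact ⟨χ i, rX_true.2 rfl⟩
  | prop i j x =>
    intro hij h1
    rw [pS_true, rX_true, rX_true] at h1
    exact hC i j x rfl hij h1.1.1 (h1.2.1.trans h1.2.2.symm)

/-- the threshold of a line on the side of the cliques -/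
noncomputable def al (l : Line N c) (S : Finset (Fin N)) : ℝ := -l.A (pS S) (qS S)

/-- the threshold of a line on the side of the colourings -/
noncomputable def be (l : Line N c) (χ : Fin N → Fin c) : ℝ := l.B (rX χ)

theorem holds_iff (l : Line N c) (S : Finset (Fin N)) (χ : Fin N → Fin c) :
    l.Holds (pS S) (qS S) (rX χ) ↔ al l S ≤ be l χ := by
  rw [Line.Holds, al, be]
  constructor <;> intro h <;> linarith

/-- The premise `s` is satisfied by `S` if the number `x` is read. -/
def Ok (out : Fin g → Fin w → Line N c) (S : Finset (Fin N)) (s : Clause N c ⊕ (Fin g × Fin w))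
    (x : ℝ) : Prop :=
  match s with
  | .inl (.prop i j _) => i ≠ j → (i ∈ S ∧ j ∈ S) → 1 ≤ x
  | .inl _ => True
  | .inr k => al (out k.1 k.2) S ≤ x

theorem Ok.mono {out : Fin g → Fin w → Line N c} {S : Finset (Fin N)}
    {s : Clause N c ⊕ (Fin g × Fin w)} {x y : ℝ} (hxy : x ≤ y) (h : Ok out S s x) :
    Ok out S s y := by
  rcases s with C | k
  · cases C with
    | prop i j x' => exact fun h1 h2 => (h h1 h2).trans hxy
    | vert a => trivial
    | inj a b i => trivial
    | edge a b i j => trivial
    | colr i => trivial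
  · exact le_trans (show al (out k.1 k.2) S ≤ x from h) hxy

open Classical in
/-- the function of an inference -/
noncomputable def F (R : Refutation N c w g) (i : Fin g) (v : Fin w → ℝ) (j : Fin w) : ℝ :=
  ((powersetCard (c + 1) (univ : Finset (Fin N))).filter
    (fun S => ∀ k, Ok R.out S (R.src i k) (v k))).fold max
      (-∑ χ : Fin N → Fin c, |be (R.out i j) χ|) (al (R.out i j))

theorem F_mono (R : Refutation N c w g) (i : Fin g) : Monotone (F R i) := by
  intro v v' h j
  rw [F, fold_max_le]
  refine ⟨(le_fold_max _).2 (Or.inl le_rfl), fun S hS => ?_⟩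
  replace hS := mem_fil2.1 hS
  refine (le_fold_max _).2 (Or.inr ⟨S, mem_fil2.2 ⟨hS.1, fun k => (hS.2 k).mono (h k)⟩, le_rfl⟩)

/-- the place which is read for a premise -/
def place (s : Clause N c ⊕ (Fin g × Fin w)) (k : Fin w) :
    (Fin N × Fin N) ⊕ (ℕ × Fin w) :=
  match s with
  | .inl (.prop i j _) => .inl (i, j)
  | .inl _ => .inr (0, k)
  | .inr t => .inr (t.1.val, t.2)

/-- the instruction of an inference -/
noncomputable def ins (R : Refutation N c w g) (m : ℕ) : Ins (Fin N × Fin N) w :=
  if h : m < g then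
    { src := fun k => place (R.src ⟨m, h⟩ k) k
      f := F R ⟨m, h⟩
      mono := F_mono R ⟨m, h⟩
      dst := m }
  else
    { src := fun k => .inr (0, k)
      f := id
      mono := monotone_id
      dst := m }

/-- the first `m` instructions -/
noncomputable def lst (R : Refutation N c w g) (m : ℕ) : List (Ins (Fin N × Fin N) w) :=
  (List.range m).map (ins R)

theorem lst_succ (R : Refutation N c w g) (m : ℕ) : lst R (m + 1) = lst R m ++ [ins R m] := by
  rw [lst, List.range_succ, List.map_append]
  rfl

/-- all pairs are labels of themselves -/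
def lb (k : Fin N × Fin N) : (Fin N × Fin N) ⊕ ℝ := .inl k

theorem row_lt {x : Fin N × Fin N → ℝ} (R : Refutation N c w g) (σ : Mem w) {m i : ℕ}
    (h : i < m) :
    execs x (lst R (m + 1)) σ i = execs x (lst R m) σ i := by
  rw [lst_succ, execs_append]
  change (Ins.exec x (ins R m) (execs x (lst R m) σ)) i = _
  rw [Ins.exec]
  apply Function.update_of_ne
  have : (ins R m).dst = m := by
    rw [ins]
    split_ifs <;> rfl
  rw [this]
  omega

theorem row_eq {x : Fin N × Fin N → ℝ} (R : Refutation N c w g) (σ : Mem w) {m : ℕ}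
    (h : m < g) :
    execs x (lst R (m + 1)) σ m = F R ⟨m, h⟩ (fun k => rd x (execs x (lst R m) σ)
      (place (R.src ⟨m, h⟩ k) k)) := by
  rw [lst_succ, execs_append]
  change (Ins.exec x (ins R m) (execs x (lst R m) σ)) m = _
  rw [Ins.exec, ins, dif_pos h]
  simp only
  rw [Function.update_self]

theorem above (R : Refutation N c w g) (σ : Mem w) {S : Finset (Fin N)} (hS : #S = c + 1)
    (m : ℕ) : ∀ (i : Fin g), i.val < m → ∀ j,
      al (R.out i j) S ≤ execs (xin lb (cl S)) (lst R m) σ i.val j := by
  induction m with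
  | zero => intro i hi; omega
  | succ m ih =>
    intro i hi j
    by_cases h : i.val < m
    · rw [row_lt R σ h]
      exact ih i h j
    · have him : i.val = m := by omega
      have hmg : m < g := him ▸ i.isLt
      have hi' : i = ⟨m, hmg⟩ := Fin.ext him
      subst hi'
      simp only
      rw [row_eq R σ hmg]
      refine (le_fold_max _).2 (Or.inr ⟨S, mem_fil2.2 ⟨mem_powersetCard.2
        ⟨subset_univ _, hS⟩, fun k => ?_⟩, le_rfl⟩)
      have hk := R.earlier ⟨m, hmg⟩ k
      beta_reduce
      generalize R.src ⟨m, hmg⟩ k = s at hk ⊢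
      rcases s with C | ⟨t1, t2⟩
      · cases C with
        | prop i j x' =>
          intro h1 h2
          simp only [place, rd, xin, lb]
          rw [if_pos (mem_cl.2 ⟨h2.1, h2.2, h1⟩)]
        | vert a => trivial
        | inj a b i => trivial
        | edge a b i j => trivial
        | colr i => trivial
      · have h3 := hk t1 t2 rfl
        simp only [place, rd, Ok]
        exact ih t1 h3 t2

theorem below (R : Refutation N c w g) (σ : Mem w) (χ : Fin N → Fin c)
    (m : ℕ) : ∀ (i : Fin g), i.val < m → ∀ j,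
      execs (xin lb (sepX χ)) (lst R m) σ i.val j ≤ be (R.out i j) χ := by
  induction m with
  | zero => intro i hi; omega
  | succ m ih =>
    intro i hi j
    by_cases h : i.val < m
    · rw [row_lt R σ h]
      exact ih i h j
    · have him : i.val = m := by omega
      have hmg : m < g := him ▸ i.isLt
      have hi' : i = ⟨m, hmg⟩ := Fin.ext him
      subst hi'
      simp only
      rw [row_eq R σ hmg, F, fold_max_le]
      constructor
      · have h1 : |be (R.out ⟨m, hmg⟩ j) χ| ≤ ∑ χ : Fin N → Fin c, |be (R.out ⟨m, hmg⟩ j) χ| :=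
          single_le_sum (f := fun χ => |be (R.out ⟨m, hmg⟩ j) χ|) (fun i _ => abs_nonneg _)
            (mem_univ χ)
        have h2 := neg_abs_le (be (R.out ⟨m, hmg⟩ j) χ)
        linarith
      · intro S hS
        replace hS := mem_fil2.1 hS
        rw [mem_powersetCard] at hS
        obtain ⟨⟨-, hS1⟩, hS2⟩ := hS
        rw [← holds_iff]
        apply R.sound
        intro k
        have h3 := hS2 k
        have hk := R.earlier ⟨m, hmg⟩ k
        generalize R.src ⟨m, hmg⟩ k = s at h3 hk ⊢
        rcases s with C | ⟨t1, t2⟩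
        · apply holds_of C hS1 χ
          intro i j x hC hij hm heq
          subst hC
          have h4 := h3 hij hm
          simp only [place, rd, xin, lb] at h4
          rw [if_neg (fun h5 => mem_sepX.1 h5 heq)] at h4
          norm_num at h4
        · have h4 := hk t1 t2 rfl
          rw [Prem, holds_iff]
          simp only [place, rd, Ok] at h3
          exact h3.trans (ih t1 h4 t2)

open Classical in
theorem main_ineq (hc : 2 ≤ c) {r : ℕ} (hr : c + 1 = 2 * r) (R : Refutation N c w g) {L : ℕ}
    (hL : 1 ≤ L) (hP : Par c (Fin N) L) :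
    N.choose (c + 1) * c ^ N ≤
      1 * ((g * LL c L w r + KK c L * N ^ c) * c ^ N +
        N.choose (c + 1) * (g * (w * (KK c L * dd c (Fin N) L 0)))) := by
  rw [one_mul]
  set T : Finset (Finset (Fin N)) := powersetCard (c + 1) univ with hT
  have hTc : #T = N.choose (c + 1) := by
    rw [hT, card_powersetCard, card_univ, Fintype.card_fin]
  rcases T.eq_empty_or_nonempty with h0 | h0
  · rw [h0, card_empty] at hTc
    rw [← hTc]
    simp
  obtain ⟨i0, j0, hlast⟩ := R.last
  obtain ⟨S0, hS0, hmin⟩ := exists_min_image T (al (R.out i0 j0)) h0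
  have hTm : ∀ S ∈ T, #S = c + 1 := fun S hS => (mem_powersetCard.1 hS).2
  have h1 := pairs_le (U := Fin N) hc hL hP hr lb (fun _ _ => 0) T hTm (lst R g)
    (.inr (i0.val, j0)) (al (R.out i0 j0) S0)
  have h2 : (T ×ˢ (univ : Finset (Fin N → Fin c))) ⊆ ({p ∈ T ×ˢ (univ : Finset (Fin N → Fin c)) |
        al (R.out i0 j0) S0 ≤ rd (xin lb (cl p.1)) (execs (xin lb (cl p.1)) (lst R g)
          (fun _ _ => 0)) (.inr (i0.val, j0)) ∧
        rd (xin lb (sepX p.2)) (execs (xin lb (sepX p.2)) (lst R g) (fun _ _ => 0))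
          (.inr (i0.val, j0)) < al (R.out i0 j0) S0} : Finset _) := by
    rintro ⟨S, χ⟩ hp
    rw [mem_filter]
    refine ⟨hp, ?_, ?_⟩
    · exact (hmin S (mem_product.1 hp).1).trans
        (above R (fun _ _ => 0) (hTm S (mem_product.1 hp).1) g i0 i0.isLt j0)
    · have h3 := hlast (pS S0) (qS S0) (rX χ)
      rw [holds_iff, not_le] at h3
      exact lt_of_le_of_lt (below R (fun _ _ => 0) χ g i0 i0.isLt j0) h3
  have h3 := (card_le_card h2).trans h1
  rw [card_product, card_univ, Fintype.card_fun, Fintype.card_fin, Fintype.card_fin, hTc] at h3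
  have h4 : (lst R g).length = g := by rw [lst, List.length_map, List.length_range]
  rw [h4] at h3
  exact h3

/-- The lower bound. -/
theorem lower (c r : ℕ) (hc : 2 ≤ c) (hr : c + 1 = 2 * r) : ∃ K : ℕ, 1 ≤ K ∧ ∀ N w g : ℕ,
    1 ≤ w → Refutation N c w g →
    N ^ (c + 1) ≤ K * (Nat.log 2 N + 1) ^ ((c + 1) ^ 2) * w ^ r * g := by
  obtain ⟨K, hK1, hK⟩ := num c r hc hr
  refine ⟨K, hK1, fun N w g hw R => ?_⟩
  have hg : 1 ≤ g := by
    obtain ⟨i, _⟩ := R.last
    have := i.isLt
    omega
  have h1 := hK N 1 g w N le_rfl hg hw (by simp) (fun L hL hP => main_ineq hc hr R hL hP)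
  rwa [one_pow, mul_one] at h1

end Pool.Agent.L5helper51.WF
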