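import Pool.Agent.L5helper51.WF.Lower

/-!
# The superpolynomial form of the lower bound
-/

namespace Pool.Agent.L5helper51.WF

open Finset

/-- powers of the logarithm grow slowly -/
theorem log_small (K E : ℕ) : ∃ N0 : ℕ, ∀ N ≥ N0, K * (Nat.log 2 N + 1) ^ E ≤ N := by
  have h1 := tendsto_pow_const_div_const_pow_of_one_lt E (show (1 : ℝ) < 2 by norm_num)
  have h2 : ∀ᶠ a : ℕ in Filter.atTop, ((a : ℝ) ^ E / 2 ^ a) < 1 / (2 * K + 1) := by
    apply h1.eventually_lt_const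
    positivity
  obtain ⟨a0, h3⟩ := Filter.eventually_atTop.1 h2
  refine ⟨2 ^ a0, fun N hN => ?_⟩
  have hN0 : N ≠ 0 := by
    have : 0 < 2 ^ a0 := by positivity
    omega
  have h4 : a0 ≤ Nat.log 2 N + 1 := by
    have := Nat.le_log_of_pow_le (by norm_num) hN
    omega
  have h5 := h3 _ h4
  rw [div_lt_div_iff₀ (by positivity) (by positivity)] at h5
  have h6 : 2 * (K * (Nat.log 2 N + 1) ^ E) ≤ 2 ^ (Nat.log 2 N + 1) := by
    have h7 : (2 : ℝ) * (K * ((Nat.log 2 N + 1 : ℕ) : ℝ) ^ E) ≤ 2 ^ (Nat.log 2 N + 1) := by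
      have : (0 : ℝ) ≤ ((Nat.log 2 N + 1 : ℕ) : ℝ) ^ E := by positivity
      nlinarith
    exact_mod_cast h7
  have h7 := Nat.pow_log_le_self 2 hN0
  rw [pow_succ] at h6
  omega

theorem super (m d : ℕ) (hm : 1 ≤ m) : ∃ c N0 : ℕ, ∀ N ≥ N0, ∀ w g : ℕ, 1 ≤ w →
    w ^ m ≤ N ^ (2 * m - 1) → Refutation N c w g → N ^ d < g := by
  set r := m * (d + 2) with hr
  have hr2 : 2 ≤ r := by
    rw [hr]
    nlinarith
  obtain ⟨K, hK1, hK⟩ := lower (2 * r - 1) r (by omega) (by omega)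
  obtain ⟨N1, hN1⟩ := log_small K ((2 * r - 1 + 1) ^ 2)
  refine ⟨2 * r - 1, N1 + 2, fun N hN w g hw hwm R => ?_⟩
  have h1 := hK N w g hw R
  have h2 := hN1 N (by omega)
  have hNpos : 0 < N := by omega
  have e1 : 2 * r - 1 + 1 = 2 * r := by omega
  rw [e1] at h1 h2
  have h3 : w ^ r ≤ N ^ (2 * r - (d + 2)) := by
    calc w ^ r = (w ^ m) ^ (d + 2) := by rw [hr, pow_mul]
      _ ≤ (N ^ (2 * m - 1)) ^ (d + 2) := Nat.pow_le_pow_left hwm _
      _ = N ^ ((2 * m - 1) * (d + 2)) := by rw [← pow_mul]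
      _ = N ^ (2 * r - (d + 2)) := by
          congr 1
          rw [hr, Nat.sub_mul, one_mul]
          congr 1
          ring
  have h4 : N ^ (2 * r) ≤ N * N ^ (2 * r - (d + 2)) * g := by
    calc N ^ (2 * r) ≤ K * (Nat.log 2 N + 1) ^ ((2 * r) ^ 2) * w ^ r * g := h1
      _ ≤ _ := Nat.mul_le_mul_right _ (Nat.mul_le_mul h2 h3)
  have h5 : d + 2 ≤ 2 * r := by
    rw [hr]
    nlinarith
  have e2 : N ^ (2 * r) = N ^ (d + 1) * (N * N ^ (2 * r - (d + 2))) := by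
    rw [← pow_succ', ← pow_add]
    congr 1
    omega
  have h6 : N ^ (d + 1) ≤ g := by
    have h7 : (N * N ^ (2 * r - (d + 2))) * N ^ (d + 1) ≤ (N * N ^ (2 * r - (d + 2))) * g := by
      calc _ = N ^ (2 * r) := by rw [e2]; ring
        _ ≤ _ := h4
    exact Nat.le_of_mul_le_mul_left h7 (by positivity)
  calc N ^ d < N ^ (d + 1) := Nat.pow_lt_pow_right (by omega) (by omega)
    _ ≤ g := h6

end Pool.Agent.L5helper51.WF
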