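import Pool.Agent.L5helper51.WF.Defs

/-!
# Refutations by blocks
-/

namespace Pool.Agent.L5helper51.WF

open Finset

theorem enum {α : Type*} (S : Finset α) (hS : S.Nonempty) {w : ℕ} (h : #S ≤ w) :
    ∃ f : Fin w → α, (∀ k, f k ∈ S) ∧ ∀ x ∈ S, ∃ k, f k = x := by
  classical
  obtain ⟨x0, hx0⟩ := hS
  refine ⟨fun k => if h : k.val < #S then (S.equivFin.symm ⟨k.val, h⟩).1 else x0, ?_, ?_⟩
  · intro k
    by_cases h1 : k.val < #S
    · simp only [dif_pos h1]
      exact (S.equivFin.symm ⟨k.val, h1⟩).2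
    · simp only [dif_neg h1]
      exact hx0
  · intro x hx
    have h1 := (S.equivFin ⟨x, hx⟩).isLt
    refine ⟨⟨(S.equivFin ⟨x, hx⟩).val, by omega⟩, ?_⟩
    simp only
    rw [dif_pos h1]
    simp

variable {N c b M : ℕ}

/-- the vertices of the blocks of a tuple -/
def vs (N b : ℕ) (T : Fin (c + 1) → Fin M) : Finset (Fin N) := {i | ∃ a, i.val / b = (T a).val}

theorem card_vs (hb : 1 ≤ b) (T : Fin (c + 1) → Fin M) : #(vs N b T) ≤ (c + 1) * b := by
  classical
  have h1 : vs N b T ⊆ (univ : Finset (Fin (c + 1))).biUnion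
      (fun a => {i : Fin N | i.val / b = (T a).val}) := by
    intro i hi
    rw [vs, mem_filter] at hi
    obtain ⟨-, a, h⟩ := hi
    rw [mem_biUnion]
    exact ⟨a, mem_univ _, mem_filter.2 ⟨mem_univ _, h⟩⟩
  have h2 : ∀ t : ℕ, #({i : Fin N | i.val / b = t} : Finset (Fin N)) ≤ b := by
    intro t
    have h3 : #(univ : Finset (Fin b)) = b := by simp
    calc _ ≤ #(univ : Finset (Fin b)) := by
          apply card_le_card_of_injOn (fun i => ⟨i.val % b, Nat.mod_lt _ hb⟩)
            (fun _ _ => mem_univ _)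
          intro i hi j hj hij
          simp only [coe_filter, mem_univ, true_and, Set.mem_ofPred_eq] at hi hj
          simp only [Fin.mk.injEq] at hij
          apply Fin.ext
          rw [← Nat.div_add_mod i.val b, ← Nat.div_add_mod j.val b, hi, hj, hij]
      _ = b := h3
  calc _ ≤ ∑ _a : Fin (c + 1), b :=
        (card_le_card h1).trans (card_biUnion_le.trans (sum_le_sum (fun a _ => h2 _)))
    _ = _ := by simp

open Classical in
/-- the clauses about a set of vertices -/
noncomputable def loc (c : ℕ) (V : Finset (Fin N)) : Finset (Clause N c) :=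
  (univ : Finset (Fin (c + 1))).image Clause.vert ∪
    (((univ : Finset (Fin (c + 1))) ×ˢ (univ : Finset (Fin (c + 1))) ×ˢ V).image
      (fun t => Clause.inj t.1 t.2.1 t.2.2) ∪
    (((univ : Finset (Fin (c + 1))) ×ˢ (univ : Finset (Fin (c + 1))) ×ˢ V ×ˢ V).image
      (fun t => Clause.edge t.1 t.2.1 t.2.2.1 t.2.2.2) ∪
    (V.image Clause.colr ∪
    (V ×ˢ V ×ˢ (univ : Finset (Fin c))).image (fun t => Clause.prop t.1 t.2.1 t.2.2))))

theorem card_loc {V : Finset (Fin N)} (hb : 1 ≤ b) (hV : #V ≤ (c + 1) * b) :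
    #(loc c V) ≤ 5 * (c + 1) ^ 4 * b ^ 2 := by
  classical
  have h1 : #(loc c V) ≤ (c + 1) + ((c + 1) * ((c + 1) * #V) +
      ((c + 1) * ((c + 1) * (#V * #V)) + (#V + #V * (#V * c)))) := by
    refine (card_union_le _ _).trans (Nat.add_le_add ?_ ?_)
    · exact card_image_le.trans (by simp)
    refine (card_union_le _ _).trans (Nat.add_le_add ?_ ?_)
    · refine card_image_le.trans ?_
      rw [card_product, card_product, card_univ, Fintype.card_fin]
    refine (card_union_le _ _).trans (Nat.add_le_add ?_ ?_)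
    · refine card_image_le.trans ?_
      rw [card_product, card_product, card_product, card_univ, Fintype.card_fin]
    refine (card_union_le _ _).trans (Nat.add_le_add card_image_le ?_)
    refine card_image_le.trans ?_
    rw [card_product, card_product, card_univ, Fintype.card_fin]
  set s := c + 1 with hs
  have hs1 : 1 ≤ s := by omega
  have hcs : c ≤ s := by omega
  have e1 : s ≤ s ^ 4 * b ^ 2 := by
    calc s = s ^ 1 * 1 := by ring
      _ ≤ s ^ 4 * b ^ 2 := Nat.mul_le_mul (Nat.pow_le_pow_right hs1 (by norm_num))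
          (Nat.one_le_pow _ _ hb)
  have e2 : s * (s * #V) ≤ s ^ 4 * b ^ 2 := by
    calc s * (s * #V) ≤ s * (s * (s * b)) := by gcongr
      _ = s ^ 3 * b ^ 1 := by ring
      _ ≤ s ^ 4 * b ^ 2 := Nat.mul_le_mul (Nat.pow_le_pow_right hs1 (by norm_num))
          (Nat.pow_le_pow_right hb (by norm_num))
  have e3 : s * (s * (#V * #V)) ≤ s ^ 4 * b ^ 2 := by
    calc s * (s * (#V * #V)) ≤ s * (s * ((s * b) * (s * b))) := by gcongr
      _ = s ^ 4 * b ^ 2 := by ring
  have e4 : #V ≤ s ^ 4 * b ^ 2 := by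
    calc #V ≤ s * b := hV
      _ = s ^ 1 * b ^ 1 := by ring
      _ ≤ s ^ 4 * b ^ 2 := Nat.mul_le_mul (Nat.pow_le_pow_right hs1 (by norm_num))
          (Nat.pow_le_pow_right hb (by norm_num))
  have e5 : #V * (#V * c) ≤ s ^ 4 * b ^ 2 := by
    calc #V * (#V * c) ≤ (s * b) * ((s * b) * s) := by gcongr
      _ = s ^ 3 * b ^ 2 := by ring
      _ ≤ s ^ 4 * b ^ 2 := Nat.mul_le_mul (Nat.pow_le_pow_right hs1 (by norm_num)) le_rfl
  calc _ ≤ _ := h1
    _ ≤ 5 * (s ^ 4 * b ^ 2) := by omega
    _ = _ := by ring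

/-- The clauses about the vertices of the blocks of a tuple exclude it. -/
theorem loc_excludes {T : Fin (c + 1) → Fin M} {p : Sym2 (Fin N) → Bool}
    {q : Fin (c + 1) → Fin N → Bool} {r : Fin N → Fin c → Bool}
    (h : ∀ C ∈ loc c (vs N b T), C.Holds p q r) :
    ¬ ∀ a, ∃ i : Fin N, q a i = true ∧ i.val / b = (T a).val := by
  classical
  intro hq
  choose i hi1 hi2 using hq
  have hV : ∀ a, i a ∈ vs N b T := fun a => by
    rw [vs, mem_filter]
    exact ⟨mem_univ _, a, hi2 a⟩
  have hinj : ∀ a a', a ≠ a' → i a ≠ i a' := by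
    intro a a' hne heq
    have h1 : Clause.inj a a' (i a) ∈ loc c (vs N b T) := by
      rw [loc, mem_union, mem_union]
      exact Or.inr (Or.inl (mem_image.2 ⟨(a, a', i a), by simp [hV a], rfl⟩))
    have h2 : a ≠ a' → ¬ (q a (i a) = true ∧ q a' (i a) = true) := h _ h1
    refine h2 hne ⟨hi1 a, ?_⟩
    rw [heq]
    exact hi1 a'
  have hedge : ∀ a a', a ≠ a' → p s(i a, i a') = true := by
    intro a a' hne
    have h1 : Clause.edge a a' (i a) (i a') ∈ loc c (vs N b T) := by
      rw [loc, mem_union, mem_union, mem_union]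
      exact Or.inr (Or.inr (Or.inl (mem_image.2 ⟨(a, a', i a, i a'), by simp [hV a, hV a'], rfl⟩)))
    have h2 : a ≠ a' → i a ≠ i a' → q a (i a) = true → q a' (i a') = true →
      p s(i a, i a') = true := h _ h1
    exact h2 hne (hinj a a' hne) (hi1 a) (hi1 a')
  have hcol : ∀ a, ∃ x, r (i a) x = true := by
    intro a
    have h1 : Clause.colr (i a) ∈ loc c (vs N b T) := by
      rw [loc, mem_union, mem_union, mem_union, mem_union]
      exact Or.inr (Or.inr (Or.inr (Or.inl (mem_image.2 ⟨i a, hV a, rfl⟩))))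
    exact h _ h1
  choose x hx using hcol
  obtain ⟨a, a', hne, heq⟩ := Fintype.exists_ne_map_eq_of_card_lt x (by simp)
  have h1 : Clause.prop (i a) (i a') (x a) ∈ loc c (vs N b T) := by
    rw [loc, mem_union, mem_union, mem_union, mem_union]
    exact Or.inr (Or.inr (Or.inr (Or.inr (mem_image.2 ⟨(i a, i a', x a), by simp [hV a, hV a'],
      rfl⟩))))
  have h2 : i a ≠ i a' → ¬ (p s(i a, i a') = true ∧ r (i a) (x a) = true ∧
    r (i a') (x a) = true) := h _ h1
  refine h2 (hinj a a' hne) ⟨hedge a a' hne, hx a, ?_⟩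
  rw [heq]
  exact hx a'

/-- the first `n` tuples are excluded -/
def Ex {G : ℕ} (b : ℕ) (e : Fin G ≃ (Fin (c + 1) → Fin M)) (n : ℕ)
    (q : Fin (c + 1) → Fin N → Bool) : Prop :=
  n ≤ G ∧ ∀ n' : Fin G, n'.val < n → ¬ ∀ a, ∃ i : Fin N, q a i = true ∧ i.val / b = (e n' a).val

open Classical in
/-- the line -/
noncomputable def exLine {G : ℕ} (N b : ℕ) (e : Fin G ≃ (Fin (c + 1) → Fin M)) (n : ℕ) :
    Line N c where
  A := fun _ q => if Ex b e n q then 0 else -1
  B := fun _ => 0

theorem exLine_holds {G : ℕ} {e : Fin G ≃ (Fin (c + 1) → Fin M)} {n : ℕ}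
    {p : Sym2 (Fin N) → Bool} {q : Fin (c + 1) → Fin N → Bool} {r : Fin N → Fin c → Bool} :
    (exLine N b e n).Holds p q r ↔ Ex b e n q := by
  rw [Line.Holds, exLine]
  simp only
  split_ifs with h
  · simp [h]
  · simp [h]

open Classical in
/-- The upper bound. -/
theorem upper (N c : ℕ) (hb : 1 ≤ b) :
    Nonempty (Refutation N c (6 * (c + 1) ^ 4 * b ^ 2) ((N / b + 1) ^ (c + 1) + 1)) := by
  set M := N / b + 1 with hM
  set G := M ^ (c + 1) with hG
  set w := 6 * (c + 1) ^ 4 * b ^ 2 with hw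
  have hw0 : 0 < w := by positivity
  have e : Fin G ≃ (Fin (c + 1) → Fin M) := Fintype.equivOfCardEq (by simp [hG])
  set T : ℕ → Fin (c + 1) → Fin M := fun i =>
    if h : i < G then e ⟨i, h⟩ else fun _ => ⟨0, Nat.succ_pos _⟩ with hT
  set PS : Fin (G + 1) → Finset (Clause N c ⊕ (Fin (G + 1) × Fin w)) := fun i =>
    (loc c (vs N b (T i.val))).image Sum.inl ∪
      (if h : 1 ≤ i.val then {Sum.inr (⟨i.val - 1, by omega⟩, ⟨0, hw0⟩)} else ∅) with hPS
  have hPS1 : ∀ i, ∃ f : Fin w → Clause N c ⊕ (Fin (G + 1) × Fin w), (∀ k, f k ∈ PS i) ∧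
      ∀ x ∈ PS i, ∃ k, f k = x := by
    intro i
    apply enum
    · refine ⟨Sum.inl (Clause.vert 0), ?_⟩
      rw [hPS, mem_union]
      left
      refine mem_image.2 ⟨_, ?_, rfl⟩
      rw [loc, mem_union]
      exact Or.inl (mem_image.2 ⟨0, mem_univ _, rfl⟩)
    · refine (card_union_le _ _).trans ?_
      have h1 : #((loc c (vs N b (T i.val))).image (Sum.inl :
          Clause N c → Clause N c ⊕ (Fin (G + 1) × Fin w))) ≤ 5 * (c + 1) ^ 4 * b ^ 2 :=
        card_image_le.trans (card_loc hb (card_vs hb _))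
      have h2 : #(if h : 1 ≤ i.val then ({Sum.inr (⟨i.val - 1, by omega⟩, ⟨0, hw0⟩)} :
          Finset (Clause N c ⊕ (Fin (G + 1) × Fin w))) else ∅) ≤ 1 := by
        split_ifs
        · simp
        · simp
      have h3 : 1 ≤ (c + 1) ^ 4 * b ^ 2 := by
        have : 0 < (c + 1) ^ 4 * b ^ 2 := by positivity
        exact this
      calc _ ≤ 5 * (c + 1) ^ 4 * b ^ 2 + 1 := Nat.add_le_add h1 h2
        _ ≤ 5 * (c + 1) ^ 4 * b ^ 2 + (c + 1) ^ 4 * b ^ 2 := by omega
        _ = w := by rw [hw]; ring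
  choose src hsrc1 hsrc2 using hPS1
  have hsound : ∀ i p q r, (∀ k, Prem (fun i _ => exLine N b e (i.val + 1)) (src i k) p q r) →
      Ex b e (i.val + 1) q := by
    intro i p q r hprem
    have hloc : ∀ C ∈ loc c (vs N b (T i.val)), C.Holds p q r := by
      intro C hC
      obtain ⟨k, hk⟩ := hsrc2 i (Sum.inl C) (by
        rw [hPS]
        exact mem_union_left _ (mem_image_of_mem _ hC))
      have h1 := hprem k
      rw [hk] at h1
      exact h1
    have hprev : ∀ n' : Fin G, n'.val < i.val → ¬ ∀ a, ∃ i : Fin N, q a i = true ∧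
        i.val / b = (e n' a).val := by
      intro n' hn'
      have hi1 : 1 ≤ i.val := by omega
      obtain ⟨k, hk⟩ := hsrc2 i (Sum.inr (⟨i.val - 1, by omega⟩, ⟨0, hw0⟩)) (by
        rw [hPS]
        apply mem_union_right
        rw [dif_pos hi1]
        exact mem_singleton_self _)
      have h1 := hprem k
      rw [hk, Prem] at h1
      simp only at h1
      rw [exLine_holds] at h1
      refine h1.2 n' ?_
      omega
    by_cases hiG : i.val < G
    · refine ⟨by omega, ?_⟩
      intro n' hn'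
      by_cases h1 : n'.val < i.val
      · exact hprev n' h1
      · have h2 : n' = ⟨i.val, hiG⟩ := Fin.ext (by simp only; omega)
        have h3 := loc_excludes hloc
        rw [hT] at h3
        simp only [dif_pos hiG] at h3
        rw [h2]
        exact h3
    · exfalso
      have hiG' : i.val = G := by omega
      have hvert : ∀ a, ∃ j : Fin N, q a j = true := by
        intro a
        have h1 : Clause.vert a ∈ loc c (vs N b (T i.val)) := by
          rw [loc, mem_union]
          exact Or.inl (mem_image.2 ⟨a, mem_univ _, rfl⟩)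
        exact hloc _ h1
      choose j hj using hvert
      have hlt : ∀ a, (j a).val / b < M := by
        intro a
        rw [hM]
        have h1 : (j a).val / b ≤ N / b := Nat.div_le_div_right (j a).isLt.le
        omega
      refine hprev (e.symm (fun a => ⟨(j a).val / b, hlt a⟩)) ?_ ?_
      · rw [hiG']
        exact (e.symm _).isLt
      · intro a
        refine ⟨j a, hj a, ?_⟩
        rw [Equiv.apply_symm_apply]
  refine ⟨{
    src := src
    out := fun i _ => exLine N b e (i.val + 1)
    earlier := ?_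
    sound := ?_
    last := ?_ }⟩
  · intro i k i' j h
    have h1 := hsrc1 i k
    rw [h, hPS, mem_union] at h1
    rcases h1 with h1 | h1
    · obtain ⟨C, _, h2⟩ := mem_image.1 h1
      exact absurd h2 (by simp)
    · split_ifs at h1 with h2
      · rw [mem_singleton, Sum.inr.injEq, Prod.mk.injEq] at h1
        rw [h1.1, Fin.lt_def]
        simp only
        omega
      · simp at h1
  · intro i p q r hprem j
    rw [exLine_holds]
    exact hsound i p q r hprem
  · refine ⟨⟨G, by omega⟩, ⟨0, hw0⟩, fun p q r => ?_⟩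
    rw [exLine_holds, Ex]
    intro h1
    have h2 := h1.1
    simp only at h2
    omega

end Pool.Agent.L5helper51.WF
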